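import Pool.Agent.D0H73.OP.Fin
import Pool.Agent.D0H73.OP.Num
import Pool.Agent.D0H73.OP.Cmp
import Pool.Agent.D0H90.OP.Pkg
import Pool.Agent.D0H92.OPT.Top
import Pool.Agent.D0H51.OP.Riesz
import Pool.Agent.D0H52.OP.Conc
import Pool.Agent.D0H6.OP.Aaf
import Pool.Agent.D0H45.OP.Dat
import Pool.Agent.D0H69.OP.Nm
import Pool.Agent.D0H97.OP.Val
import Pool.Agent.D0H19.OP.Low
import Pool.Agent.D0H35.OP.Step
import Pool.Agent.D0H69.OP.Base
import Pool.Agent.D0H10.OP.Last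
import Pool.Agent.D0H30.OPU.Fin

/-!
# MP_09b497_an, Q1

For every infinite group of bounded exponent, convolution `ℓ¹(G) × ℓ¹(G) → ℓ¹(G)` is not an open map.
-/

universe u

namespace Pool.Agent.Results.MP_09b497_an.NotOpen

open Pool.Agent.D0H73.OP

theorem fin : S_FIN := by
  have hPKG : S_PKG := Pool.Agent.D0H90.OP.t_PKG Pool.Agent.D0H51.OP.t_RIESZ
  have hAAF : S_AAF := Pool.Agent.D0H6.OP.t_AAF
  have hNUM : S_NUM := Pool.Agent.D0H73.OP.t_NUM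
  have hTOP : S_TOP := Pool.Agent.D0H92.OPT.t_TOP
  have hVAL : S_VAL := Pool.Agent.D0H97.OP.t_VAL
  have hCMP : S_CMP := Pool.Agent.D0H73.OP.t_CMP Pool.Agent.D0H52.OP.t_CONC hNUM hAAF hVAL
  have hLOW : S_LOW := Pool.Agent.D0H19.OP.t_LOW hNUM hAAF Pool.Agent.D0H69.OP.t_NM hVAL
  exact t_FIN (Pool.Agent.D0H45.OP.t_DAT hPKG hAAF hNUM)
    (Pool.Agent.D0H69.OP.t_BASE hTOP hNUM hAAF hVAL)
    (Pool.Agent.D0H35.OP.t_STEP hTOP hNUM hLOW hCMP)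
    (Pool.Agent.D0H10.OP.t_LAST hTOP hNUM hLOW)

/-- For every infinite group `G` of bounded exponent (in any universe), the convolution of `ℓ¹(G)` (as a map
`ℓ¹(G) × ℓ¹(G) → ℓ¹(G)`) is not open. -/
theorem result (G : Type u) [Group G] [Infinite G] (n : ℕ) (hn : 1 ≤ n)
    (hG : ∀ g : G, g ^ n = 1) :
    ¬ IsOpenMap (fun q : lp (fun _ : G => ℂ) 1 × lp (fun _ : G => ℂ) 1 =>
      Pool.Agent.D0H30.OPU.conv q.1 q.2) :=
  Pool.Agent.D0H30.OPU.main fin Pool.Agent.D0H73.OP.t_NUM Pool.Agent.D0H6.OP.t_AAF G n hn hG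

end Pool.Agent.Results.MP_09b497_an.NotOpen
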